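import Pool.Agent.Helper68.RV.COIw

/-!
# RX9b: `core_irw` for points off all the subschemes
-/

set_option autoImplicit false
set_option linter.unusedSectionVars false

namespace Pool.Agent.SQ.RV

open NumberField Filter Module MvPolynomial
open Pool.Agent.Helper64.Vojta (Pl nv sn above)
open Pool.Agent.V2
open Pool.Agent.Chart (fld dg crd hgt)
open Pool.Agent.ZS (HQ mem_HQ)

universe u

/-- RX9b (from `core0_rl`, `ver_wi`) -/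
theorem core_irlx {k : Type u} [Field k] [NumberField k] {N q e : ℕ} (P : Ideal (MvPolynomial (Fin (N + 1)) k)) [hPp : P.IsPrime]
    (hP : ∀ p ∈ P, ∀ m, homogeneousComponent m p ∈ P) (d : Fin q → Fin e → ℕ)
    (f : Fin q → Fin e → MvPolynomial (Fin (N + 1)) k) (hf : ∀ i j, (f i j).IsHomogeneous (d i j)) {Ξ : Type} [Fintype Ξ]
    (γ θ : Ξ → Fin q → ℝ) (hγ : ∀ ξ i, 0 ≤ γ ξ i) (hθ : ∀ ξ i, 0 ≤ θ ξ i)
    (hγθ : ∀ ξ i, ∀ᶠ m : ℕ in atTop, γ ξ i * (m * hilb P m) ≤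
      ∑ x ∈ Finset.range ⌊θ ξ i * m⌋₊, (dimf P (sat (P ⊔ idl f i ^ (x + 1))) m : ℝ))
    (ξ₁ : Ξ) {δ : ℝ} (hδ : 0 < δ) :
    ∃ Q : MvPolynomial (Fin (N + 1)) k, Q ∉ P ∧ (∃ e, Q.IsHomogeneous e) ∧
      ∀ {G : Type} [Group G] [Fintype G] {D : SqG k G} (y : ∀ a, Fin (N + 1) → D.L a), Ptg D y →
        (∀ a, ∀ p ∈ P, aeval (y a) p = 0) → (∀ a, aeval (y a) Q ≠ 0) →
        ∀ (S : Finset (Pl k)) (T : Pl k → G → Finset (Fin q)), (∀ v ∈ S, ∀ g, GenPos P (idl f) (T v g)) →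
        (∀ a, ∀ i, ∃ j, aeval (y a) (f i j) ≠ 0) →
        ∀ (L : Pl k → G → Fin q → ℝ), (∀ v ∈ S, ∀ g, ∀ i, 0 ≤ L v g i) →
        (∀ v ∈ S, ∀ g, ∀ i, LB D (fun a => gamJ (D.s a) (D.N a) (y a) (d i) (f i) v g) (L v g i)) →
        ∀ (Hs : Subgroup G), (∀ a, ∀ h ∈ Hs, ∀ j, D.s a h (y a j) = y a j) →
          ∀ (lin : Pl k → Prop) [DecidablePred lin] (Gd Tg : Pl k → Finset G),
          (∀ a, ∀ v ∈ S, lin v → ∀ u ∈ Gd v, ∀ g ∈ Tg v, ∀ z : D.L a, (∀ h ∈ Hs, D.s a h z = z) →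
            D.N a v (D.s a (u * g) z) = D.N a v (D.s a g z)) →
          ∀ {r : ℕ} (ρ : Fin r → G), (∀ g, ∃! j, (ρ j)⁻¹ * g ∈ Hs) →
          ∀ (Rp : Pl k → Finset (Fin r)) (cl : Pl k → Fin r → Fin r) (ξ : Pl k → Fin r → Ξ),
          (∀ v ∈ S, ¬ lin v → ∀ j, cl v j ∈ Rp v ∧ ξ v (cl v j) = ξ v j ∧ T v (ρ (cl v j)) = T v (ρ j) ∧
            ∀ i, L v (ρ (cl v j)) i = L v (ρ j) i) →
          (∀ a, ∀ v ∈ S, ¬ lin v → ∀ j, ∀ z : D.L a, (∀ h ∈ Hs, D.s a h z = z) →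
            D.N a v (D.s a (ρ (cl v j)) z) = D.N a v (D.s a (ρ j) z)) →
          ∑ v ∈ S, (if lin v then ((Gd v).card : ℝ) * ∑ g ∈ Tg v, ∑ i ∈ T v g, (γ ξ₁ i - δ) * L v g i else
            (Fintype.card G : ℝ) ^ 2 * ∑ j ∈ Rp v, ∑ i ∈ T v (ρ j), ((γ (ξ v j) i - δ -
              (1 - ((Finset.univ.filter fun j' => cl v j' = j).card : ℝ) / r) * θ (ξ v j) i) * L v (ρ j) i)) ≤
            Fintype.card G := by
  obtain ⟨Q, hQ, hQh, h⟩ := core_irw P hP d f hf γ θ hγ hθ hγθ ξ₁ hδ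
  refine ⟨Q, hQ, hQh, ?_⟩
  intro G _ _ D y hy hyI hyQ S T hT hyf L hL0 hL Hs hH lin _ Gd Tg hC r ρ hρ Rp cl ξ hcl hclN
  exact h y hy hyI hyQ S T hT (fun a _ _ _ i _ => hyf a i) L (fun v hv g i _ => hL0 v hv g i)
    (fun v hv g i _ => hL v hv g i) Hs hH lin Gd Tg hC ρ hρ Rp cl ξ
    (fun v hv hl j => ⟨(hcl v hv hl j).1, (hcl v hv hl j).2.1, (hcl v hv hl j).2.2.1, fun i _ => (hcl v hv hl j).2.2.2 i⟩)
    hclN

end Pool.Agent.SQ.RV
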